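import Pool.Agent.H16.TO.Targets

/-!
# Evaluation at a pair of elements is local
-/

set_option autoImplicit false

namespace Pool.Agent.H19.TW.LO

open Pool.Agent.H16.TO

theorem ev_congr (φ : C2) (U U' : ℕ → Bool → Prop) (W W' : ℕ → Bool → Bool → Prop)
    (e e' : Bool → Bool → Prop) (g g' : Bool → φ.Bt)
    (hU : ∀ i v, U i v ↔ U' i v) (hW : ∀ i v w, W i v w ↔ W' i v w)
    (he : ∀ v w, e v w ↔ e' v w) (hg : ∀ v, g v = g' v) :
    φ.ev U W e g ↔ φ.ev U' W' e' g' := by
  have h1 : U = U' := by funext i v; exact propext (hU i v)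
  have h2 : W = W' := by funext i v w; exact propext (hW i v w)
  have h3 : e = e' := by funext v w; exact propext (he v w)
  have h4 : g = g' := funext hg
  rw [h1, h2, h3, h4]

theorem key {B : ℕ} {X : Type} (φ : C2) (π : X → φ.Bt) (lam : ℕ → Lab B X)
    (th : ℕ → ℕ → Ty B) (s s' : Bool → ℕ) (p q : Lab B X) (t : Ty B)
    (hl : ∀ x, lam (s x) = if s' x = 0 then p else q)
    (he : ∀ x y, s x = s y ↔ s' x = s' y)
    (hlt : ∀ x y, s x < s y ↔ s' x < s' y)
    (ht : ∀ x y, s x < s y → th (s x) (s y) = t) :
    φ.evA (PfL lam) (RfL lam th) (fun c => π (lam c).2.2) s ↔ ev2 φ π p q t s' := by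
  unfold ev2 C2.evA
  apply ev_congr
  · intro i v
    simp only [PfL, hl v]
  · intro i v w
    simp only [RfL]
    by_cases hi : i = 0
    · rw [if_pos hi, if_pos hi]; exact hlt v w
    · rw [if_neg hi, if_neg hi]
      apply exists_congr
      intro h
      by_cases h1 : s v = s w
      · rw [if_pos h1, if_pos ((he v w).1 h1), hl v]
      · rw [if_neg h1, if_neg (fun h2 => h1 ((he v w).2 h2))]
        by_cases h2 : s v < s w
        · rw [if_pos h2, if_pos ((hlt v w).1 h2), ht v w h2]
        · rw [if_neg h2, if_neg (fun h3 => h2 ((hlt v w).2 h3))]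
          have h3 : s w < s v := by omega
          rw [ht w v h3]
  · intro v w; exact he v w
  · intro v
    simp only [hl v]

theorem pf_lo : T_LO := by
  intro B X φ π lam th v a b
  refine ⟨fun h => ?_, fun h => ?_, ?_⟩
  · apply key
    · intro x
      by_cases hx : x = v
      · simp [hx]
      · simp [hx]
    · intro x y
      by_cases hx : x = v <;> by_cases hy : y = v <;> simp [hx, hy] <;> omega
    · intro x y
      by_cases hx : x = v <;> by_cases hy : y = v <;> simp [hx, hy] <;> omega
    · intro x y
      by_cases hx : x = v <;> by_cases hy : y = v <;> simp [hx, hy] <;> omega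
  · apply key
    · intro x
      by_cases hx : x = v
      · simp [hx]
      · simp [hx]
    · intro x y
      by_cases hx : x = v <;> by_cases hy : y = v <;> simp [hx, hy] <;> omega
    · intro x y
      by_cases hx : x = v <;> by_cases hy : y = v <;> simp [hx, hy] <;> omega
    · intro x y
      by_cases hx : x = v <;> by_cases hy : y = v <;> simp [hx, hy] <;> omega
  · apply key
    · intro x; simp
    · intro x y; simp
    · intro x y; simp
    · intro x y; simp

end Pool.Agent.H19.TW.LO
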