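import Pool.Agent.H16.TO.Targets

/-!
# Every formula defines a one-order system
-/

set_option autoImplicit false

namespace Pool.Agent.H19.TW.N1

open Pool.Agent.H16.TO

theorem toSys (cl : T_CL) (sc : T_SC) (ev : T_EV) (ge : T_GE) (lo : T_LO) (ok : T_OK) (φ : C2)
    [Fintype φ.clo.Bt] [DecidableEq φ.clo.Bt] [Nonempty φ.clo.Bt] (n : ℕ) (hn : 0 < n)
    (P : ℕ → ℕ → Prop) (R : ℕ → ℕ → ℕ → Prop) (hR : ∀ a b, R 0 a b ↔ a < b)
    (hs : ∀ s : Bool → ℕ, (∀ w, s w < n) → φ.SatN n P R s) :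
    OneSys (Λ := Lab φ.bd φ.clo.Bt) (Θ := Ty φ.bd) φ.clo.th
      (fun a l r => OkF φ.clo.th φ.clo id a l r ∧
        ev2 φ.clo id a a (fun _ => false, fun _ => false) (fun _ => 0)) n := by
  classical
  have h1 := (cl φ n hn P R).1 hs
  have x0 : φ.clo.Bt := Classical.arbitrary _
  let lam0 : ℕ → Lab φ.bd φ.clo.Bt := fun a =>
    (fun i => decide (P i.val a), fun i => decide (R i.val a a), x0)
  let th : ℕ → ℕ → Ty φ.bd := fun a b =>
    (fun i => decide (R i.val a b), fun i => decide (R i.val b a))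
  obtain ⟨g, hg⟩ := ge φ.clo n (PfL lam0) (RfL lam0 th)
  let lam : ℕ → Lab φ.bd φ.clo.Bt := fun a =>
    (fun i => decide (P i.val a), fun i => decide (R i.val a a), g a)
  have hg' : φ.clo.Good n (PfL lam) (RfL lam th) (fun a => id (lam a).2.2) := hg
  have hP : ∀ i < φ.clo.bd, ∀ a < n, (P i a ↔ PfL lam i a) := by
    intro i hi a _
    have hi' : i < φ.bd := hi
    constructor
    · intro h
      exact ⟨hi', decide_eq_true h⟩
    · rintro ⟨_, h⟩
      exact of_decide_eq_true h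
  have hRR : ∀ i < φ.clo.bd, ∀ a < n, ∀ b < n, (R i a b ↔ RfL lam th i a b) := by
    intro i hi a _ b _
    have hi' : i < φ.bd := hi
    unfold RfL
    by_cases h0 : i = 0
    · subst h0
      rw [if_pos rfl]
      exact hR a b
    · rw [if_neg h0]
      have key : (if a = b then (lam a).2.1 ⟨i, hi'⟩ else
          if a < b then (th a b).1 ⟨i, hi'⟩ else (th b a).2 ⟨i, hi'⟩) = decide (R i a b) := by
        by_cases h1 : a = b
        · subst h1
          rw [if_pos rfl]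
        · rw [if_neg h1]
          by_cases h2 : a < b
          · rw [if_pos h2]
          · rw [if_neg h2]
      constructor
      · intro h
        exact ⟨hi', by rw [key]; exact decide_eq_true h⟩
      · rintro ⟨_, h⟩
        rw [key] at h
        exact of_decide_eq_true h
  have hok := (ok φ.bd φ.clo.Bt φ.clo.th φ.clo id lam th n le_rfl).1 hg'
  refine ⟨lam, th, fun a ha => ⟨hok a ha, ?_⟩⟩
  have h2 := (sc φ.clo n P (PfL lam) R (RfL lam th) hP hRR (fun _ => a) (fun _ => ha)).1 (h1 a ha)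
  have h3 := (ev φ.clo n (PfL lam) (RfL lam th) _ hg' (fun _ => a) (fun _ => ha)).1 h2
  exact (lo φ.bd φ.clo.Bt φ.clo id lam th false a a).2.2.1 h3

theorem ofSys (cl : T_CL) (ev : T_EV) (lo : T_LO) (ok : T_OK) (φ : C2)
    [Fintype φ.clo.Bt] [DecidableEq φ.clo.Bt] (n : ℕ) (hn : 0 < n)
    (hs : OneSys (Λ := Lab φ.bd φ.clo.Bt) (Θ := Ty φ.bd) φ.clo.th
      (fun a l r => OkF φ.clo.th φ.clo id a l r ∧
        ev2 φ.clo id a a (fun _ => false, fun _ => false) (fun _ => 0)) n) :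
    ∃ (P : ℕ → ℕ → Prop) (R : ℕ → ℕ → ℕ → Prop), (∀ a b, R 0 a b ↔ a < b) ∧
    ∀ s : Bool → ℕ, (∀ w, s w < n) → φ.SatN n P R s := by
  obtain ⟨lam, th, h⟩ := hs
  refine ⟨PfL lam, RfL lam th, fun a b => by simp [RfL], ?_⟩
  rw [cl φ n hn]
  have hg := (ok φ.bd φ.clo.Bt φ.clo.th φ.clo id lam th n le_rfl).2 (fun a ha => (h a ha).1)
  intro a ha
  apply (ev φ.clo n (PfL lam) (RfL lam th) _ hg (fun _ => a) (fun _ => ha)).2
  exact (lo φ.bd φ.clo.Bt φ.clo id lam th false a a).2.2.2 (h a ha).2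

theorem pf_n1 : T_B1 → T_CL → T_SC → T_EV → T_GE → T_BF → T_LO → T_OK → T_N1 := by
  intro b1 cl sc ev ge bf lo ok φ
  classical
  have : Finite φ.clo.Bt := (bf φ.clo).1
  have : Nonempty φ.clo.Bt := (bf φ.clo).2
  let _ : Fintype φ.clo.Bt := Fintype.ofFinite _
  refine ⟨Lab φ.bd φ.clo.Bt, Ty φ.bd, inferInstance, inferInstance, inferInstance, inferInstance,
    inferInstance, inferInstance, φ.clo.th,
    fun a l r => OkF φ.clo.th φ.clo id a l r ∧
      ev2 φ.clo id a a (fun _ => false, fun _ => false) (fun _ => 0), ?_⟩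
  intro n
  rw [b1 φ n]
  apply and_congr_right
  intro hn
  constructor
  · rintro ⟨P, R, hR, hs⟩
    exact toSys cl sc ev ge lo ok φ n hn P R hR hs
  · intro h
    exact ofSys cl ev lo ok φ n hn h

end Pool.Agent.H19.TW.N1
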