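import Pool.Agent.H16.TO.Targets

/-!
# The local form of the correctness of the bits
-/

set_option autoImplicit false

namespace Pool.Agent.H19.TW.OK

open Pool.Agent.H16.TO

theorem cntEq {B : ℕ} {X : Type} [Fintype X] [DecidableEq X] (K : ℕ) (hct : T_CT) (hlo : T_LO)
    (k : ℕ) (v : Bool) (φ : C2) (π : X → φ.Bt) (lam : ℕ → Lab B X) (th : ℕ → ℕ → Ty B)
    (n a : ℕ) (ha : a < n) (hk : k ≤ K)
    (FL FR : Lab B X × Ty B → Prop) (iL : DecidablePred FL) (iR : DecidablePred FR) (D : Prop)
    (iD : Decidable D)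
    (hFL : FL = fun p => ev2 φ π p.1 (lam a) p.2 (fun x => if x = v then 0 else 1))
    (hFR : FR = fun p => ev2 φ π (lam a) p.1 p.2 (fun x => if x = v then 1 else 0))
    (hD : D = ev2 φ π (lam a) (lam a) (fun _ => false, fun _ => false) (fun _ => 0)) :
    k ≤ {b | b < n ∧ φ.evA (PfL lam) (RfL lam th) (fun c => π (lam c).2.2)
      (fun x => if x = v then b else a)}.ncard ↔
    k ≤ (∑ p with FL p, (capn K (Lc lam th a p)).val) + (if D then 1 else 0) +
      ∑ p with FR p, (capn K (Rc lam th a n p)).val := by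
  apply hct _ _ K lam th n a ha (fun b => φ.evA (PfL lam) (RfL lam th) (fun c => π (lam c).2.2)
      (fun x => if x = v then b else a)) FL FR D _ _ _ k hk
  · intro b hb
    rw [hFL]
    exact (hlo B X φ π lam th v a b).1 hb
  · rw [hD]
    have h := (hlo B X φ π lam th v a a).2.2
    simpa using h
  · intro b hb _
    rw [hFR]
    exact (hlo B X φ π lam th v a b).2.1 hb

theorem pf_ok : T_CT → T_LO → T_OK := by
  intro hct hlo B X _ _ K φ
  induction φ with
  | un i v => intro π lam th n _; simp [C2.Good, OkF]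
  | bi i v w => intro π lam th n _; simp [C2.Good, OkF]
  | eq v w => intro π lam th n _; simp [C2.Good, OkF]
  | neg φ ih => intro π lam th n h; exact ih π lam th n h
  | and φ ψ ih1 ih2 =>
    intro π lam th n h
    have h1 : φ.th ≤ K := le_trans (le_max_left _ _) h
    have h2 : ψ.th ≤ K := le_trans (le_max_right _ _) h
    have e1 := ih1 (fun x => (π x).1) lam th n h1
    have e2 := ih2 (fun x => (π x).2) lam th n h2
    show (φ.Good n (PfL lam) (RfL lam th) (fun a => (π (lam a).2.2).1) ∧
      ψ.Good n (PfL lam) (RfL lam th) (fun a => (π (lam a).2.2).2)) ↔ _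
    rw [e1, e2]
    constructor
    · rintro ⟨a1, a2⟩ a ha
      exact ⟨a1 a ha, a2 a ha⟩
    · intro hh
      exact ⟨fun a ha => (hh a ha).1, fun a ha => (hh a ha).2⟩
  | cnt k v φ ih =>
    intro π lam th n h
    have h1 : k ≤ K := le_trans (le_max_left _ _) h
    have h2 : φ.th ≤ K := le_trans (le_max_right _ _) h
    have e2 := ih (fun x => (π x).2) lam th n h2
    show (φ.Good n (PfL lam) (RfL lam th) (fun a => (π (lam a).2.2).2) ∧ ∀ a < n,
      ((π (lam a).2.2).1 = true ↔ k ≤ {b | b < n ∧ φ.evA (PfL lam) (RfL lam th)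
        (fun c => (π (lam c).2.2).2) (fun x => if x = v then b else a)}.ncard)) ↔ _
    rw [e2]
    constructor
    · rintro ⟨a1, a2⟩ a ha
      refine ⟨a1 a ha, ?_⟩
      rw [a2 a ha]
      exact cntEq K hct hlo k v φ (fun x => (π x).2) lam th n a ha h1 _ _ _ _ _ _ rfl rfl rfl
    · intro hh
      refine ⟨fun a ha => (hh a ha).1, fun a ha => ?_⟩
      rw [(hh a ha).2]
      exact (cntEq K hct hlo k v φ (fun x => (π x).2) lam th n a ha h1 _ _ _ _ _ _
        rfl rfl rfl).symm

end Pool.Agent.H19.TW.OK
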