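import Pool.Agent.H16.TO.Targets

/-!
# One more element
-/

set_option autoImplicit false

namespace Pool.Agent.H19.TW.RS

open Pool.Agent.H16.TO

section
variable {Λ Θ : Type} [Fintype Λ] [Fintype Θ] [DecidableEq Λ] [DecidableEq Θ]

theorem capn_succ (K x : ℕ) : capn K ((capn K x).val + 1) = capn K (x + 1) := by
  apply Fin.ext
  simp only [capn]
  omega

omit [Fintype Λ] [Fintype Θ] in
theorem Rc_succ (lam : ℕ → Λ) (th : ℕ → ℕ → Θ) (a t : ℕ) (ha : a < t) (p : Λ × Θ) :
    Rc lam th a (t + 1) p = Rc lam th a t p + if p = (lam t, th a t) then 1 else 0 := by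
  have hI : Finset.Ico (a + 1) (t + 1) = insert t (Finset.Ico (a + 1) t) := by
    ext x
    simp only [Finset.mem_Ico, Finset.mem_insert]
    omega
  unfold Rc
  rw [hI, Finset.filter_insert]
  by_cases h : p = (lam t, th a t)
  · subst h
    rw [if_pos ⟨rfl, rfl⟩, if_pos rfl, Finset.card_insert_of_notMem]
    simp
  · rw [if_neg h, if_neg]
    · rfl
    · rintro ⟨h1, h2⟩
      exact h (Prod.ext h1.symm h2.symm)

theorem stt_upd (K : ℕ) (lam : ℕ → Λ) (th : ℕ → ℕ → Θ) (a t : ℕ) (ha : a < t) :
    stt K lam th (t + 1) a = upd (stt K lam th t a) (lam t) (th a t) := by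
  unfold stt upd
  refine Prod.ext rfl (Prod.ext rfl ?_)
  funext p
  show capn K (Rc lam th a (t + 1) p) = Function.update (fun p => capn K (Rc lam th a t p))
    (lam t, th a t) (capn K ((capn K (Rc lam th a t (lam t, th a t))).val + 1)) p
  rw [Rc_succ lam th a t ha p]
  by_cases h : p = (lam t, th a t)
  · subst h
    rw [if_pos rfl, Function.update_self, capn_succ]
  · rw [if_neg h, Function.update_of_ne h]
    rfl

theorem stt_new (K : ℕ) (lam : ℕ → Λ) (th : ℕ → ℕ → Θ) (t : ℕ) (m : St Λ Θ K × Θ → ℕ)
    (hm : ∀ σ θ, m (σ, θ) =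
      ((Finset.range t).filter fun a => stt K lam th t a = σ ∧ th a t = θ).card) :
    stt K lam th (t + 1) t = newSt (lam t) m := by
  unfold stt newSt
  refine Prod.ext rfl (Prod.ext ?_ ?_)
  · funext p
    show capn K (Lc lam th t p) = capn K (∑ σ with σ.1 = p.1, m (σ, p.2))
    congr 1
    unfold Lc
    rw [Finset.card_eq_sum_card_fiberwise (f := fun a => stt K lam th t a)
      (t := Finset.univ.filter fun σ : St Λ Θ K => σ.1 = p.1)]
    · apply Finset.sum_congr rfl
      intro σ hσ
      rw [hm]
      congr 1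
      ext a
      simp only [Finset.mem_filter, Finset.mem_range, Finset.mem_univ, true_and] at hσ ⊢
      constructor
      · rintro ⟨⟨h1, _, h3⟩, h4⟩
        exact ⟨h1, h4, h3⟩
      · rintro ⟨h1, h2, h3⟩
        refine ⟨⟨h1, ?_, h3⟩, h2⟩
        rw [← hσ, ← h2]
        rfl
    · intro a ha
      simp only [Finset.coe_filter, Finset.mem_range, Set.mem_ofPred_eq, Finset.mem_univ,
        true_and] at ha ⊢
      exact ha.2.1
  · funext p
    show capn K (Rc lam th t (t + 1) p) = capn K 0
    congr 1
    unfold Rc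
    simp

theorem pf_rs0 (K : ℕ) (lam : ℕ → Λ) (th : ℕ → ℕ → Θ) (t : ℕ) (m : St Λ Θ K × Θ → ℕ)
    (hm : ∀ σ θ, m (σ, θ) =
      ((Finset.range t).filter fun a => stt K lam th t a = σ ∧ th a t = θ).card) :
    Step (conf K lam th t) (lam t) m (conf K lam th (t + 1)) := by
  constructor
  · intro σ
    unfold conf
    rw [Finset.card_eq_sum_card_fiberwise (f := fun a => th a t) (t := Finset.univ)
      (by intro a _; simp)]
    apply Finset.sum_congr rfl
    intro θ _
    rw [hm, Finset.filter_filter]
  · intro σ'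
    have h1 : conf K lam th (t + 1) σ' =
        ((Finset.range t).filter fun a => stt K lam th (t + 1) a = σ').card +
          if σ' = newSt (lam t) m then 1 else 0 := by
      unfold conf
      rw [Finset.range_add_one, Finset.filter_insert, stt_new K lam th t m hm]
      by_cases h : σ' = newSt (lam t) m
      · rw [if_pos h.symm, if_pos h, Finset.card_insert_of_notMem]
        simp
      · rw [if_neg (fun e => h e.symm), if_neg h]
        rfl
    rw [h1]
    congr 1
    rw [Finset.card_eq_sum_card_fiberwise (f := fun a => (stt K lam th t a, th a t))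
      (t := Finset.univ.filter fun p : St Λ Θ K × Θ => upd p.1 (lam t) p.2 = σ')]
    · apply Finset.sum_congr rfl
      rintro ⟨σ, θ⟩ hp
      rw [hm]
      congr 1
      ext a
      simp only [Finset.mem_filter, Finset.mem_range, Finset.mem_univ, true_and,
        Prod.mk.injEq] at hp ⊢
      constructor
      · rintro ⟨⟨h1, _⟩, h3, h4⟩
        exact ⟨h1, h3, h4⟩
      · rintro ⟨h1, h2, h3⟩
        refine ⟨⟨h1, ?_⟩, h2, h3⟩
        rw [stt_upd K lam th a t h1, h2, h3]
        exact hp
    · intro a ha
      simp only [Finset.coe_filter, Finset.mem_range, Set.mem_ofPred_eq, Finset.mem_univ,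
        true_and] at ha ⊢
      rw [← stt_upd K lam th a t ha.1]
      exact ha.2

end

theorem pf_rs : T_RS := by
  intro Λ Θ _ _ _ _ K lam th t m hm
  exact ⟨fun a ha => stt_upd K lam th a t ha, stt_new K lam th t m hm,
    pf_rs0 K lam th t m hm⟩

end Pool.Agent.H19.TW.RS
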